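import Pool.Agent.N659.HB.Stm4
import Pool.Agent.W792.WA.Stm3

/-!
# Truncation of a Gaussian law

Project KG of helper659, part KG/TRG, by helper776. The proof of `vr_pos` is the one of
`Pool.Agent.W792.WA.G9`.
-/

set_option autoImplicit false

namespace Pool.Agent.N776.KG

open MeasureTheory Filter ProbabilityTheory Pool.Agent.W792.LL Pool.Agent.W792.WA
  Pool.Agent.N659.HB
open scoped Topology ENNReal NNReal

noncomputable section

theorem vr_pos (hCay : S_CAY) (ν : Measure ℝ) [IsProbabilityMeasure ν] (h : ∀ a : ℝ, ν {a} < 1) :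
    0 < vr ν := by
  have hb : ∀ᵐ x ∂ν, ‖cay x‖ ≤ 1 := ae_of_all _ fun x => (hCay.1 x).le
  rcases ae_eq_const_or_norm_average_lt_of_norm_le_const hb with h1 | h1
  · exfalso
    obtain ⟨a, ha⟩ := h1.exists
    have h2 : ∀ᵐ x ∂ν, x = a := by
      filter_upwards [h1] with x hx
      have h3 : cay x = cay a := hx.trans ha.symm
      unfold cay at h3
      have n1 : (x : ℂ) - Complex.I ≠ 0 := by
        intro h0
        have := congrArg Complex.im h0
        simp at this
      have n2 : (a : ℂ) - Complex.I ≠ 0 := by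
        intro h0
        have := congrArg Complex.im h0
        simp at this
      rw [div_eq_div_iff n1 n2] at h3
      have h4 : 2 * Complex.I * ((a : ℂ) - x) = 0 := by linear_combination h3
      have h5 : (a : ℂ) - x = 0 := by
        rcases mul_eq_zero.1 h4 with h6 | h6
        · exfalso
          have := congrArg Complex.im h6
          simp at this
        · exact h6
      have h6 : (a : ℂ) = x := by linear_combination h5
      exact_mod_cast h6.symm
    have h3 : ν {a} = 1 := by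
      have h4 : ν {a}ᶜ = 0 := h2
      exact (prob_compl_eq_zero_iff (measurableSet_singleton a)).1 h4
    exact absurd (h a) (by rw [h3]; exact lt_irrefl _)
  · rw [average_eq_integral] at h1
    unfold vr
    have h3 : ‖∫ x, cay x ∂ν‖ ^ 2 < 1 := by
      have := norm_nonneg (∫ x, cay x ∂ν)
      nlinarith
    linarith

/-- truncation -/
def tr (c x : ℝ) : ℝ := if |x| ≤ c then x else 0

theorem tr_meas (c : ℝ) : Measurable (tr c) :=
  Measurable.ite (measurableSet_le (by fun_prop) measurable_const) measurable_id measurable_const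

theorem tr_neg (c x : ℝ) : tr c (-x) = -tr c x := by
  unfold tr
  rw [abs_neg]
  split_ifs <;> simp

theorem abs_tr_le (c x : ℝ) (hc : 0 ≤ c) : |tr c x| ≤ c := by
  unfold tr
  split_ifs with h
  · exact h
  · simpa using hc

theorem tr_sq_le (c x : ℝ) : tr c x ^ 2 ≤ x ^ 2 := by
  unfold tr
  split_ifs
  · exact le_rfl
  · simp [sq_nonneg]

/-- the variance as a nonnegative real -/
abbrev vv (s : ℝ) : ℝ≥0 := ⟨s ^ 2, sq_nonneg s⟩

theorem int_exp (s t : ℝ) :
    ∫ x, Real.exp (t * x) ∂(gaussianReal 0 (vv s)) = Real.exp (s ^ 2 * t ^ 2 / 2) := by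
  have h := congrFun (mgf_id_gaussianReal (μ := 0) (v := vv s)) t
  rw [mgf] at h
  simp only [id_eq, zero_mul, zero_add] at h
  exact h

theorem int_sq (s : ℝ) : ∫ x, x ^ 2 ∂(gaussianReal 0 (vv s)) = s ^ 2 := by
  have h := variance_fun_id_gaussianReal (μ := 0) (v := vv s)
  rw [variance_of_integral_eq_zero (by fun_prop) integral_id_gaussianReal] at h
  exact h

theorem int_tr (s c : ℝ) : ∫ x, tr c x ∂(gaussianReal 0 (vv s)) = 0 := by
  have h := gaussianReal_map_neg (μ := 0) (v := vv s)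
  rw [neg_zero] at h
  have h1 : ∫ x, tr c x ∂(gaussianReal 0 (vv s)) =
      ∫ x, tr c (-x) ∂(gaussianReal 0 (vv s)) := by
    conv_lhs => rw [← h]
    rw [integral_map (by fun_prop) (tr_meas c).aestronglyMeasurable]
  have h2 : ∫ x, tr c (-x) ∂(gaussianReal 0 (vv s)) =
      -∫ x, tr c x ∂(gaussianReal 0 (vv s)) := by
    rw [← integral_neg]
    exact integral_congr_ae (ae_of_all _ fun x => tr_neg c x)
  linarith

theorem integrable_sq' (s : ℝ) : Integrable (fun x : ℝ => x ^ 2) (gaussianReal 0 (vv s)) :=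
  (memLp_id_gaussianReal (μ := 0) (v := vv s) 2).integrable_sq

theorem integrable_tr_sq (s c : ℝ) :
    Integrable (fun x : ℝ => tr c x ^ 2) (gaussianReal 0 (vv s)) := by
  refine (integrable_sq' s).mono' ((tr_meas c).pow_const 2).aestronglyMeasurable
    (ae_of_all _ fun x => ?_)
  rw [Real.norm_of_nonneg (sq_nonneg _)]
  exact tr_sq_le c x

theorem int_tr_sq_le (s c : ℝ) : ∫ x, tr c x ^ 2 ∂(gaussianReal 0 (vv s)) ≤ s ^ 2 := by
  rw [← int_sq s]
  exact integral_mono (integrable_tr_sq s c) (integrable_sq' s) fun x => tr_sq_le c x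

theorem exp_abs_le (y : ℝ) : Real.exp |y| ≤ Real.exp y + Real.exp (-y) := by
  rcases abs_cases y with ⟨h, -⟩ | ⟨h, -⟩ <;> rw [h]
  · linarith [Real.exp_pos (-y)]
  · linarith [Real.exp_pos y]

theorem int_tr_sq_ge (s L : ℝ) (hs : 0 < s) (hL : 3 ≤ L) :
    s ^ 2 / 2 ≤ ∫ x, tr (s * L) x ^ 2 ∂(gaussianReal 0 (vv s)) := by
  have h1 : ∀ x : ℝ, x ^ 2 - tr (s * L) x ^ 2 ≤
      9 * Real.exp (-6) * s ^ 2 * (Real.exp (2 / s * x) + Real.exp (-(2 / s) * x)) := by
    intro x
    by_cases hx : |x| ≤ s * L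
    · rw [tr, if_pos hx, sub_self]
      positivity
    · rw [tr, if_neg hx]
      rw [not_le] at hx
      set y := |x| / s with hy
      have hy3 : 3 ≤ y := by
        rw [hy, le_div_iff₀ hs]
        nlinarith
      have e1 : x ^ 2 = s ^ 2 * y ^ 2 := by
        rw [hy, div_pow, sq_abs]
        field_simp
      have e2 : y ^ 2 ≤ 9 * Real.exp (2 * (y - 3)) := by
        have := Real.quadratic_le_exp_of_nonneg (x := 2 * (y - 3)) (by linarith)
        nlinarith [sq_nonneg (y - 3)]
      have e3 : Real.exp (2 * (y - 3)) = Real.exp (-6) * Real.exp (2 * y) := by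
        rw [← Real.exp_add]
        congr 1
        ring
      have e4 : Real.exp (2 * y) ≤ Real.exp (2 / s * x) + Real.exp (-(2 / s) * x) := by
        have e5 := exp_abs_le (2 / s * x)
        have e6 : |2 / s * x| = 2 * y := by
          rw [abs_mul, abs_of_pos (by positivity : (0:ℝ) < 2 / s), hy]
          ring
        rw [e6, ← neg_mul] at e5
        exact e5
      have e7 : x ^ 2 - (0 : ℝ) ^ 2 = s ^ 2 * y ^ 2 := by rw [e1]; ring
      rw [e7]
      calc s ^ 2 * y ^ 2 ≤ s ^ 2 * (9 * (Real.exp (-6) * Real.exp (2 * y))) := by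
            rw [← e3]; gcongr
        _ ≤ s ^ 2 * (9 * (Real.exp (-6) *
            (Real.exp (2 / s * x) + Real.exp (-(2 / s) * x)))) := by gcongr
        _ = _ := by ring
  have i1 : Integrable (fun x : ℝ => Real.exp (2 / s * x)) (gaussianReal 0 (vv s)) :=
    integrable_exp_mul_gaussianReal _
  have i2 : Integrable (fun x : ℝ => Real.exp (-(2 / s) * x)) (gaussianReal 0 (vv s)) :=
    integrable_exp_mul_gaussianReal _
  have h2 := integral_mono ((integrable_sq' s).sub (integrable_tr_sq s (s * L)))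
    ((i1.add i2).const_mul (9 * Real.exp (-6) * s ^ 2)) h1
  have h3 : ∫ x, ((fun x : ℝ => x ^ 2) - fun x => tr (s * L) x ^ 2) x ∂(gaussianReal 0 (vv s)) =
      s ^ 2 - ∫ x, tr (s * L) x ^ 2 ∂(gaussianReal 0 (vv s)) := by
    rw [integral_sub' (integrable_sq' s) (integrable_tr_sq s (s * L)), int_sq]
  have h4 : ∫ x, 9 * Real.exp (-6) * s ^ 2 * ((fun x : ℝ => Real.exp (2 / s * x)) +
      fun x => Real.exp (-(2 / s) * x)) x ∂(gaussianReal 0 (vv s)) =
      18 * s ^ 2 * Real.exp (-4) := by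
    rw [integral_const_mul, integral_add' i1 i2, int_exp, int_exp]
    have e1 : s ^ 2 * (2 / s) ^ 2 / 2 = 2 := by field_simp
    have e2 : s ^ 2 * (-(2 / s)) ^ 2 / 2 = 2 := by rw [neg_sq]; exact e1
    rw [e1, e2]
    have e3 : Real.exp (-4) = Real.exp (-6) * Real.exp 2 := by
      rw [← Real.exp_add]
      norm_num
    rw [e3]
    ring
  have h5 : Real.exp (-4) ≤ 1 / 36 := by
    rw [Real.exp_neg, inv_eq_one_div]
    apply one_div_le_one_div_of_le (by norm_num)
    have e1 : Real.exp 4 = Real.exp 1 ^ 4 := by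
      rw [← Real.exp_nat_mul]
      norm_num
    rw [e1]
    have e2 := Real.exp_one_gt_d9
    calc (36 : ℝ) ≤ 2.5 ^ 4 := by norm_num
      _ ≤ Real.exp 1 ^ 4 := by gcongr; linarith
  have h6 : s ^ 2 - ∫ x, tr (s * L) x ^ 2 ∂(gaussianReal 0 (vv s)) ≤
      18 * s ^ 2 * Real.exp (-4) := by
    rw [← h3, ← h4]
    exact h2
  have h7 : 18 * s ^ 2 * Real.exp (-4) ≤ 18 * s ^ 2 * (1 / 36) := by gcongr
  linarith

/-- the distance -/
theorem dist_le (hCay : S_CAY) (s L : ℝ) (hs : 0 < s) (hL : 3 ≤ L) :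
    ∫ x, ‖cay x - cay (tr (s * L) x)‖ ^ 2 ∂(gaussianReal 0 (vv s)) ≤
      Real.exp (-(L ^ 2) / 8) ^ 2 := by
  have h1 : ∀ x : ℝ, ‖cay x - cay (tr (s * L) x)‖ ^ 2 ≤
      4 * Real.exp (-L ^ 2) * (Real.exp (L / s * x) + Real.exp (-(L / s) * x)) := by
    intro x
    by_cases hx : |x| ≤ s * L
    · rw [tr, if_pos hx, sub_self, norm_zero, zero_pow two_ne_zero]
      positivity
    · rw [not_le] at hx
      have e1 : ‖cay x - cay (tr (s * L) x)‖ ≤ 2 := by
        refine (norm_sub_le _ _).trans ?_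
        rw [hCay.1, hCay.1]
        norm_num
      have e2 : ‖cay x - cay (tr (s * L) x)‖ ^ 2 ≤ 4 := by
        have := norm_nonneg (cay x - cay (tr (s * L) x))
        nlinarith
      have e3 : Real.exp (L ^ 2) ≤ Real.exp (L / s * x) + Real.exp (-(L / s) * x) := by
        have e5 := exp_abs_le (L / s * x)
        rw [← neg_mul] at e5
        refine le_trans ?_ e5
        apply Real.exp_le_exp.2
        rw [abs_mul, abs_of_pos (by positivity : (0:ℝ) < L / s)]
        calc L ^ 2 = L / s * (s * L) := by field_simp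
          _ ≤ L / s * |x| := by gcongr
      calc _ ≤ (4 : ℝ) := e2
        _ = 4 * Real.exp (-L ^ 2) * Real.exp (L ^ 2) := by
            rw [mul_assoc, ← Real.exp_add]
            simp
        _ ≤ _ := by gcongr
  have i1 : Integrable (fun x : ℝ => Real.exp (L / s * x)) (gaussianReal 0 (vv s)) :=
    integrable_exp_mul_gaussianReal _
  have i2 : Integrable (fun x : ℝ => Real.exp (-(L / s) * x)) (gaussianReal 0 (vv s)) :=
    integrable_exp_mul_gaussianReal _
  have h2 := integral_mono_of_nonneg (μ := gaussianReal 0 (vv s))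
    (f := fun x => ‖cay x - cay (tr (s * L) x)‖ ^ 2)
    (ae_of_all _ fun x => sq_nonneg _) ((i1.add i2).const_mul (4 * Real.exp (-L ^ 2)))
    (ae_of_all _ h1)
  have h4 : ∫ x, 4 * Real.exp (-L ^ 2) * ((fun x : ℝ => Real.exp (L / s * x)) +
      fun x => Real.exp (-(L / s) * x)) x ∂(gaussianReal 0 (vv s)) =
      8 * Real.exp (-(L ^ 2) / 2) := by
    rw [integral_const_mul, integral_add' i1 i2, int_exp, int_exp]
    have e1 : s ^ 2 * (L / s) ^ 2 / 2 = L ^ 2 / 2 := by field_simp
    have e2 : s ^ 2 * (-(L / s)) ^ 2 / 2 = L ^ 2 / 2 := by rw [neg_sq]; exact e1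
    rw [e1, e2]
    have e3 : Real.exp (-(L ^ 2) / 2) = Real.exp (-L ^ 2) * Real.exp (L ^ 2 / 2) := by
      rw [← Real.exp_add]
      congr 1
      ring
    rw [e3]
    ring
  refine h2.trans (h4.le.trans ?_)
  have e1 : Real.exp (-(L ^ 2) / 8) ^ 2 = Real.exp (-(L ^ 2) / 2) * Real.exp (L ^ 2 / 4) := by
    rw [← Real.exp_nat_mul, ← Real.exp_add]
    congr 1
    push_cast
    ring
  rw [e1, mul_comm]
  refine mul_le_mul_of_nonneg_left ?_ (Real.exp_pos _).le
  have e2 : Real.exp (9 / 4) ≤ Real.exp (L ^ 2 / 4) := Real.exp_le_exp.2 (by nlinarith)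
  refine le_trans ?_ e2
  have e3 : Real.exp (9 / 4) = Real.exp 1 ^ 2 * Real.exp (1 / 4) := by
    rw [← Real.exp_nat_mul, ← Real.exp_add]
    norm_num
  have e4 : 1 + (1 / 4 : ℝ) ≤ Real.exp (1 / 4) := by
    have := Real.add_one_le_exp (1 / 4 : ℝ)
    linarith
  have e5 := Real.exp_one_gt_d9
  rw [e3]
  calc (8 : ℝ) ≤ 2.71 ^ 2 * (1 + 1 / 4) := by norm_num
    _ ≤ Real.exp 1 ^ 2 * Real.exp (1 / 4) := by gcongr; linarith

/-- **KG/TRG.** -/
theorem main : S_QNT2 → S_CAY → S_TRG := by
  intro hQ hCay s L hs hL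
  obtain ⟨X, -, hX⟩ := hQ (gaussianReal 0 (vv s))
  have hv : vv s ≠ 0 := by
    intro h
    have := congrArg NNReal.toReal h
    have h2 : s ^ 2 = 0 := this
    exact absurd h2 (by positivity)
  have hc : 0 ≤ s * L := by positivity
  have hX' : qlaw (⟨fun u => tr (s * L) (X.1 u), (tr_meas _).comp X.2⟩ : MX) =
      (gaussianReal 0 (vv s)).map (tr (s * L)) := by
    rw [← hX]
    unfold qlaw
    rw [Measure.map_map (tr_meas _) X.2]
    rfl
  refine ⟨X, ⟨fun u => tr (s * L) (X.1 u), (tr_meas _).comp X.2⟩, hX, ?_, ?_, ?_, ?_, ?_, ?_⟩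
  · rw [hX]
    refine vr_pos hCay _ fun a => ?_
    have := nullSingletonClass_gaussianReal (μ := 0) hv
    rw [measure_singleton]
    exact one_pos
  · refine le_trans (le_of_eq ?_) (dist_le hCay s L hs hL)
    rw [← hX]
    unfold qlaw
    rw [integral_map X.2.aemeasurable]
    · rfl
    · exact ((hCay.2.1.measurable.sub (hCay.2.1.measurable.comp (tr_meas _))).norm.pow_const
        2).aestronglyMeasurable
  · rw [hX']
    refine (ae_map_iff (tr_meas _).aemeasurable
      (measurableSet_le (by fun_prop) measurable_const)).2 (ae_of_all _ fun x => ?_)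
    exact abs_tr_le _ x hc
  · rw [hX', integral_map (tr_meas _).aemeasurable (by fun_prop)]
    exact int_tr s (s * L)
  · rw [hX', integral_map (tr_meas _).aemeasurable (by fun_prop)]
    have e : ∀ x, (tr (s * L) x / (s * L)) ^ 2 = 1 / (s * L) ^ 2 * tr (s * L) x ^ 2 := by
      intro x
      rw [div_pow]
      ring
    simp only [e]
    rw [integral_const_mul]
    have h1 := int_tr_sq_ge s L hs hL
    calc 1 / (2 * L ^ 2) = 1 / (s * L) ^ 2 * (s ^ 2 / 2) := by field_simp
      _ ≤ _ := by gcongr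
  · rw [hX', integral_map (tr_meas _).aemeasurable (by fun_prop)]
    have e : ∀ x, (tr (s * L) x / (s * L)) ^ 2 = 1 / (s * L) ^ 2 * tr (s * L) x ^ 2 := by
      intro x
      rw [div_pow]
      ring
    simp only [e]
    rw [integral_const_mul]
    have h1 := int_tr_sq_le s (s * L)
    calc 1 / (s * L) ^ 2 * ∫ x, tr (s * L) x ^ 2 ∂(gaussianReal 0 (vv s)) ≤
          1 / (s * L) ^ 2 * s ^ 2 := by gcongr
      _ = 1 / L ^ 2 := by field_simp

end

end Pool.Agent.N776.KG
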